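import Mathlib
import Pool.Agent.Tour.Seven

set_option autoImplicit false

namespace Pool.Agent.Results.MP_9038fc_co.Gap

open Pool.Agent.Tour.Seven

/-- `T` is the arc relation of a tournament on `Fin n` -/
def IsTournament {n : ℕ} (T : Fin n → Fin n → Prop) : Prop :=
  (∀ i, ¬ T i i) ∧ ∀ i j, i ≠ j → (T i j ↔ ¬ T j i)

/-- the set of arc sets of the Hamiltonian circuits of `T`: a Hamiltonian circuit visits the
vertices in a cyclic order `p 0, p 1, ..., p (n-1)`, each exactly once, and its arcs are the pairs
`(p i, p (i + 1))`, with `i + 1` taken modulo `n` -/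
def circuits {n : ℕ} [NeZero n] (T : Fin n → Fin n → Prop) : Set (Set (Fin n × Fin n)) :=
  {A | ∃ p : Fin n → Fin n, Function.Bijective p ∧ (∀ i, T (p i) (p (i + 1))) ∧
    A = Set.range (fun i => (p i, p (i + 1)))}

/-- the arc set of a walk -/
def arcs (p : Fin 7 → Fin 7) : Set (Fin 7 × Fin 7) := Set.range (fun i => (p i, p (i + 1)))

lemma circuits_ncard (T : Fin 7 → Fin 7 → Prop) : (circuits T).ncard = (walks T).ncard := by
  have himg : circuits T = arcs '' walks T := by
    ext A
    constructor
    · rintro ⟨p, hp, hT, rfl⟩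
      obtain ⟨c, hc⟩ := hp.surjective 0
      refine ⟨fun i => p (i + c), ⟨?_, ?_, ?_⟩, ?_⟩
      · intro i j hij
        exact add_right_cancel (hp.injective hij)
      · simp [hc]
      · intro i
        have := hT (i + c)
        have e : i + 1 + c = i + c + 1 := add_right_comm _ _ _
        simp only
        rw [e]
        exact this
      · ext x
        simp only [arcs, Set.mem_range]
        constructor
        · rintro ⟨i, rfl⟩
          refine ⟨i + c, ?_⟩
          have e : i + 1 + c = i + c + 1 := add_right_comm _ _ _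
          rw [e]
        · rintro ⟨i, rfl⟩
          refine ⟨i - c, ?_⟩
          have e : i - c + 1 + c = i + 1 := by rw [add_right_comm, sub_add_cancel]
          have e' : i - c + c = i := sub_add_cancel _ _
          rw [e, e']
    · rintro ⟨p, ⟨hp, hp0, hT⟩, rfl⟩
      exact ⟨p, Finite.injective_iff_bijective.1 hp, hT, rfl⟩
  rw [himg]
  apply Set.InjOn.ncard_image
  rintro p ⟨hp, hp0, -⟩ q ⟨hq, hq0, -⟩ hpq
  have key : ∀ i : Fin 7, p i = q i → p (i + 1) = q (i + 1) := by
    intro i hi
    have : (p i, p (i + 1)) ∈ arcs q := by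
      rw [← hpq]
      exact ⟨i, rfl⟩
    obtain ⟨j, hj⟩ := this
    simp only [Prod.mk.injEq] at hj
    have : j = i := hq (hj.1.trans hi)
    subst this
    exact hj.2.symm
  have h0 : p 0 = q 0 := by rw [hp0, hq0]
  have h1 := key 0 h0
  have h2 := key 1 h1
  have h3 := key 2 h2
  have h4 := key 3 h3
  have h5 := key 4 h4
  have h6 := key 5 h5
  funext i
  fin_cases i
  · exact h0
  · exact h1
  · exact h2
  · exact h3
  · exact h4
  · exact h5
  · exact h6

lemma circuits_iso (T : Fin 7 → Fin 7 → Prop) (e : Fin 7 → Fin 7) (he : Function.Injective e) :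
    (circuits (fun i j => T (e i) (e j))).ncard = (circuits T).ncard := by
  have heb : Function.Bijective e := Finite.injective_iff_bijective.1 he
  let E := Equiv.ofBijective e heb
  have : circuits T = (fun A => Prod.map e e '' A) '' circuits (fun i j => T (e i) (e j)) := by
    ext A
    constructor
    · rintro ⟨p, hp, hT, rfl⟩
      refine ⟨_, ⟨fun i => E.symm (p i), E.symm.bijective.comp hp, ?_, rfl⟩, ?_⟩
      · intro i
        have h : ∀ x, e (E.symm x) = x := E.apply_symm_apply
        simp only [h]
        exact hT i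
      · have h : ∀ x, e (E.symm x) = x := E.apply_symm_apply
        simp only [← Set.range_comp]
        congr 1
        funext i
        simp [h]
    · rintro ⟨_, ⟨p, hp, hT, rfl⟩, rfl⟩
      refine ⟨fun i => e (p i), heb.comp hp, hT, ?_⟩
      simp only [← Set.range_comp]
      rfl
  rw [this]
  symm
  apply Set.ncard_image_of_injective
  exact Set.image_injective.2 (he.prodMap he)

/-- the quadratic residue tournament on seven vertices -/
def paley (i j : Fin 7) : Prop := j - i = 1 ∨ j - i = 2 ∨ j - i = 4

instance : DecidableRel paley := fun i j =>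
  inferInstanceAs (Decidable (j - i = 1 ∨ j - i = 2 ∨ j - i = 4))

/-- the bit matrix of the quadratic residue tournament -/
def PM : ℕ :=
  (List.finRange 7).foldl (fun s i => (List.finRange 7).foldl (fun s j =>
    if paley i j then s ||| 2 ^ (7 * i.val + j.val) else s) s) 0

/-- Main theorem: there are `n`, `h` and an `n`-tournament with at least `h` Hamiltonian circuits
(so `h ≤ h_o(n)`), while no `n`-tournament has exactly `h` Hamiltonian circuits. -/
theorem result : ∃ (n : ℕ) (_ : NeZero n) (h : ℕ) (T₀ : Fin n → Fin n → Prop),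
    IsTournament T₀ ∧ h ≤ (circuits T₀).ncard ∧
    ∀ T : Fin n → Fin n → Prop, IsTournament T → (circuits T).ncard ≠ h := by
  refine ⟨7, inferInstance, 23, paley, ?_, ?_, ?_⟩
  · refine ⟨by decide, by decide⟩
  · rw [circuits_ncard, walks_ncard paley (fun v w => PM.testBit (7 * v + w)) (by decide +kernel),
      ← goM_eq]
    decide +kernel
  · intro T hT
    obtain ⟨e, he, h⟩ := main7 T hT.1 hT.2
    rwa [← circuits_iso T e he, circuits_ncard]

end Pool.Agent.Results.MP_9038fc_co.Gap
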